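import Pool.Agent.T6.H4.SG.All
import Pool.Agent.T6.H4.SG.Ele

/-!
# MP_ff3f8e_an, Q1: the spectrum of every endomorphism of the disc algebra is a multiplicative
# semigroup

`A` is the disc algebra, as a set of functions on the closed unit disc.  An endomorphism is a map
that is linear and multiplicative on `A` and maps `A` into itself; its values outside `A` play no
role.
-/

open Metric Set

namespace Pool.Agent.Results.MP_ff3f8e_an.SpectralSemigroup

/-- The closed unit disc. -/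
abbrev Disc : Type := ↥(Metric.closedBall (0 : ℂ) 1)

/-- The disc algebra: the restrictions to the closed unit disc of the functions that are continuous
on the closed unit disc and holomorphic in the open unit disc. -/
def A : Set (Disc → ℂ) := {f | ∃ g : ℂ → ℂ, ContinuousOn g (closedBall 0 1) ∧
  DifferentiableOn ℂ g (ball 0 1) ∧ ∀ z : Disc, f z = g z}

/-- `T` maps the disc algebra linearly into itself. -/
structure IsLin (T : (Disc → ℂ) → (Disc → ℂ)) : Prop where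
  maps : ∀ f ∈ A, T f ∈ A
  add : ∀ f ∈ A, ∀ g ∈ A, T (f + g) = T f + T g
  smul : ∀ c : ℂ, ∀ f ∈ A, T (c • f) = c • T f

/-- `T` is an endomorphism of the disc algebra (no boundedness is assumed, and `T` may be zero). -/
structure Endo (T : (Disc → ℂ) → (Disc → ℂ)) : Prop where
  lin : IsLin T
  mul : ∀ f ∈ A, ∀ g ∈ A, T (f * g) = T f * T g

/-- `S` is bounded for the sup norm. -/
def Bdd (S : (Disc → ℂ) → (Disc → ℂ)) : Prop :=
  ∃ C : ℝ, ∀ f ∈ A, ∀ M : ℝ, (∀ z, ‖f z‖ ≤ M) → ∀ z, ‖S f z‖ ≤ C * M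

/-- `S` is a bounded two-sided inverse of `T - l` on the disc algebra. -/
structure IsInv (T : (Disc → ℂ) → (Disc → ℂ)) (l : ℂ) (S : (Disc → ℂ) → (Disc → ℂ)) : Prop where
  lin : IsLin S
  bdd : Bdd S
  inv : ∀ f ∈ A, S (T f - l • f) = f ∧ T (S f) - l • S f = f

/-- The spectrum of `T`: the numbers `l` for which `T - l` has no bounded inverse. -/
def Spec (T : (Disc → ℂ) → (Disc → ℂ)) : Set ℂ := {l : ℂ | ¬ ∃ S, IsInv T l S}

theorem lin_iff (T : (Disc → ℂ) → (Disc → ℂ)) : IsLin T ↔ Pool.Agent.T6.H4.SG.Ele.IsLin T :=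
  ⟨fun h => ⟨h.1, h.2, h.3⟩, fun h => ⟨h.1, h.2, h.3⟩⟩

theorem inv_iff (T : (Disc → ℂ) → (Disc → ℂ)) (l : ℂ) : (∃ S, IsInv T l S) ↔
    ∃ S : (Disc → ℂ) → (Disc → ℂ), Pool.Agent.T6.H4.SG.Ele.IsLin S ∧
      (∃ C : ℝ, ∀ f ∈ Pool.Agent.T6.H4.SG.Ele.A, ∀ M : ℝ, (∀ z, ‖f z‖ ≤ M) →
        ∀ z, ‖S f z‖ ≤ C * M) ∧
      ∀ f ∈ Pool.Agent.T6.H4.SG.Ele.A, S (T f - l • f) = f ∧ T (S f) - l • S f = f :=
  ⟨fun ⟨S, h⟩ => ⟨S, (lin_iff S).1 h.1, h.2, h.3⟩, fun ⟨S, h1, h2, h3⟩ => ⟨S, (lin_iff S).2 h1, h2, h3⟩⟩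

/-- The spectrum of every endomorphism of the disc algebra is closed under multiplication. -/
theorem result (T : (Disc → ℂ) → (Disc → ℂ)) (hT : Endo T) :
    ∀ l ∈ Spec T, ∀ m ∈ Spec T, l * m ∈ Spec T := by
  intro l hl m hm
  have hl' : ¬ ∃ S, IsInv T l S := hl
  have hm' : ¬ ∃ S, IsInv T m S := hm
  show ¬ ∃ S, IsInv T (l * m) S
  rw [inv_iff] at hl' hm' ⊢
  exact Pool.Agent.T6.H4.SG.Ele.main Pool.Agent.T6.H4.SG.main T ((lin_iff T).1 hT.1) hT.2 l m hl' hm'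

end Pool.Agent.Results.MP_ff3f8e_an.SpectralSemigroup
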